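import Pool.Agent.U121.SI.LMain
import Pool.Agent.U121.SI.LAsym

/-!
# SetIntersection: space `N ^ 2 / T` for every query time, if the joint memory has constant depth

A family of `2 k` sets of total size at most `N` is preprocessed: the sets `X i` of the first half
and the sets `Y j` of the second half. The memory has `s` joint cells of `w` bits, and in addition an
unlimited memory with arbitrary functions of the first half alone and of the second half alone. The
bits of the joint cells are computed by a circuit with at most `M` gates (NOT, and AND and OR with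
unbounded fan-in) in depth at most `h`, whose inputs are *arbitrary* functions of single sets of the
family. A query `(i, j)` lists the elements of `X i ∩ Y j` with at most `C * (T + op)` adaptive
probes (joint cells, or words of `w` bits of the one-sided memory), where `op` is the size of the
intersection; the computation of the query is free and not uniform, everything may be random, and
the probability that the query is right and fast is at least `1 / 2`. We show

  `N ^ 2 ≤ 10 ^ 21 * C ^ 5 * w ^ 6 * T * s * (24 σ) ^ (2 h + 2)`, if `h * M * N ^ 2 ≤ 2 ^ σ`,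

for all `N ≥ 10 ^ 10 (C w) ^ 2 T` and a suitable `k`. So for constant `h`, polylogarithmic `C` and
`w` and quasipolynomial `M` the space is `Ω~(N ^ 2 / T)`, for every `T` up to `N / polylog N`: the
conjecture holds for all structures of this kind.

Proof. Every set contains every element of a universe of `n = m ^ 2 u` elements with probability
`1 / m`, where `m` is of the order `C w`, `u` is of the order `T`, and `k n` is of the order `N`, so
that intersections have about `u` elements. For a pair `(i, j)` choose second random contents for
all sets. A bit of a joint cell which is not sensitive to both sets `i` and `j` at any corner of the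
square given by the two contents of `X i` and `Y j` is a function of two bits, one of which depends
on `X i` (and the other sets and contents) and one on `Y j`. If less than `c T / (w C)` cells have
other bits, then the query can be simulated by a protocol for the owners of the two sets in which
for every probe of a joint cell either both send `w` bits, or the contents of the cell is guessed.
The tensorised two-point inequality of the starting file `EntanglementTradeoff` shows that this
protocol finds the intersection with a probability which is exponentially small in `u`, also after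
the union bound for the guesses (the bad cells need not be known: only few of the probes are bad).
So for every pair `(i, j)` there are `c T / (w C)` cells with a bit which is sensitive to both sets
on the average; by the switching lemma every bit has at most `(24 σ) ^ (2 h + 2)` such pairs on the
average, and there are `k ^ 2` pairs.
-/

set_option autoImplicit false

namespace Pool.Agent.Results.MP_f326ae_lc.ConstantDepthListing

open Pool.Agent.U121.SI (sg sg_cond)
open Pool.Agent.U121.SI.Lst (DS Solves list_main cond_le polylog_list)

/-- There is a random data structure for SetIntersection for two families of `k` sets of numbers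
less than `N`, of total size at most `N`, with query time `C * (T + op)` and `s` joint cells of `w`
bits, which are computed by circuits with at most `M` gates in depth at most `h`. -/
def Solvable (N k w s M h : ℕ) (C T : ℝ) : Prop :=
  ∃ (Ω : Type) (_ : Fintype Ω) (p : Ω → ℝ) (D : Ω → DS k w s), (∀ ω, 0 ≤ p ω) ∧ ∑ ω, p ω = 1 ∧
    (∀ ω, (D ω).Bounded M h) ∧ Solves N C T p D

/-- (1) The explicit bound. (2) For a constant depth `h`, word length and `C` at most
`(log N) ^ c`, circuits with at most `2 ^ ((log N) ^ c)` gates and any `T ≤ N / (log N) ^ A`, the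
space is at least `N ^ 2 / (K * T * (log N) ^ A)`, for all large `N`. -/
theorem result :
    (∀ (N w : ℕ) (C T : ℝ), 1 ≤ w → 1 ≤ C → 1 ≤ T → 10 ^ 10 * (C * w) ^ 2 * T ≤ N →
      ∃ k : ℕ, ∀ s M h σ : ℕ, 1 ≤ σ → h * (M * N ^ 2) ≤ 2 ^ σ → Solvable N k w s M h C T →
      (N : ℝ) ^ 2 ≤ 10 ^ 21 * C ^ 5 * w ^ 6 * T * s * (24 * σ) ^ (2 * h + 2)) ∧
    ∀ h c : ℕ, ∃ K A N₀ : ℕ, ∀ (N w : ℕ) (C T : ℝ), N₀ ≤ N → 1 ≤ w →
      w ≤ (Nat.log 2 N) ^ c → 1 ≤ C → C ≤ (Nat.log 2 N : ℝ) ^ c → 1 ≤ T →
      T * (Nat.log 2 N : ℝ) ^ A ≤ N → ∃ k : ℕ, ∀ s M : ℕ, M ≤ 2 ^ (Nat.log 2 N) ^ c →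
      Solvable N k w s M h C T → (N : ℝ) ^ 2 ≤ K * (T * s * (Nat.log 2 N : ℝ) ^ A) := by
  have h1 : ∀ (N w : ℕ) (C T : ℝ), 1 ≤ w → 1 ≤ C → 1 ≤ T → 10 ^ 10 * (C * w) ^ 2 * T ≤ N →
      ∃ k : ℕ, ∀ s M h σ : ℕ, 1 ≤ σ → h * (M * N ^ 2) ≤ 2 ^ σ → Solvable N k w s M h C T →
      (N : ℝ) ^ 2 ≤ 10 ^ 21 * C ^ 5 * w ^ 6 * T * s * (24 * σ) ^ (2 * h + 2) := by
    intro N w C T hw hC hT hN
    obtain ⟨k, hk⟩ := list_main hw hC hT hN
    refine ⟨k, ?_⟩
    rintro s M h σ hσ hM ⟨Ω, _, p, D, hp, hp1, hD, hs⟩
    exact hk s M h σ hσ hM Ω p hp hp1 D hD hs
  refine ⟨h1, fun h c => ?_⟩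
  refine ⟨10 ^ 21 * (24 * (h + 6)) ^ (2 * h + 2), 11 * c + (c + 1) * (2 * h + 2) + 34, 4, ?_⟩
  intro N w C T hN hw hw' hC hC' hT hT'
  have hl : 2 ≤ Nat.log 2 N := Nat.le_log_of_pow_le (by norm_num) (by omega)
  obtain ⟨k, hk⟩ := h1 N w C T hw hC hT (cond_le hl (by nlinarith) hw' hC hC' hT hT')
  refine ⟨k, fun s M hM hS => ?_⟩
  refine polylog_list (by omega) (by omega) hw' (by linarith) hC' (by linarith) ?_
  have h2 := hk s M h (sg h c (Nat.log 2 N)) ?_ (sg_cond hM) hS
  · exact_mod_cast h2
  · unfold sg
    omega

end Pool.Agent.Results.MP_f326ae_lc.ConstantDepthListing
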