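import Pool.Agent.U121.SI.Inter
import Pool.Agent.U121.SI.Asym

/-!
# Set intersection queries: space `N ^ 2 / T ^ 2`, if the joint memory has constant depth

A family of `2 k` sets of total size at most `N` is preprocessed: the sets `X i` of the first half
and the sets `Y j` of the second half. The memory has `s` joint cells of `w` bits, and in addition an
unlimited memory with arbitrary functions of the first half alone and of the second half alone. The
bits of the joint cells are computed by a circuit with at most `M` gates (NOT, and AND and OR with
unbounded fan-in) in depth at most `h`, whose inputs are *arbitrary* functions of single sets of the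
family. A query `(i, j)` makes at most `T` adaptive probes (joint cells, or words of `w` bits of the
one-sided memory) and decides whether `X i` and `Y j` intersect; the computation of the query is free
and not uniform, and everything may be random, with error probability at most `1 / 1000`. (A
structure which lists the intersections with `C (T + op)` probes also does this, with `C T` probes:
stop after this time and say that the sets intersect.) We show

  `N ^ 2 ≤ 10 ^ 10 * T ^ 2 * w ^ 3 * s * (24 σ) ^ (2 h + 2)`, if `h * M * N ^ 2 ≤ 2 ^ σ`,

for all `N ≥ 1000 w T` and a suitable `k`. So for constant `h`, polylogarithmic `T` and `w` and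
quasipolynomial `M` the space is `Ω~(N ^ 2)`, as in the conjecture.

Proof. The sets have independent random contents of `m` elements, `m` of the order `w T`, and `k m`
is of the order `N`. Choose two random contents for every set, and consider a bit of the memory as a
function of the `2 k` bits which select one of the two contents for every set. It is computed by the
same circuit, because its inputs are functions of one selection bit each. By the switching lemma the
mean number of pairs `(i, j)` such that the memory bit is sensitive to both selection bits is at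
most `(24 σ) ^ (2 h + 2)`. If in the square given by the two contents of `X i` and `Y j` no corner is
sensitive in both directions, then the bit at one corner is determined by the other three, two of
which depend on one of the two contents only. So for most pairs `(i, j)` all bits of all joint cells
together may be replaced by functions of two bits which the owners of the two sets can compute,
except with a small probability; hence adaptive probes do not help, and the query gives a protocol
with `2 w T` bits. By the theorem of Babai, Frankl and Simon, which is proved for these contents,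
such a protocol errs with probability at least `3 / 1024`.
-/

set_option autoImplicit false

namespace Pool.Agent.Results.MP_f326ae_lc.ConstantDepthMemory

open Pool.Agent.U121.SI (log_small polylog sg sg_cond)
open Pool.Agent.U121.SI.SetInt (DS Solves int_main)

/-- There is a random data structure for two families of `k` sets of numbers less than `N ^ 2`, of
total size at most `N`, with `s` joint cells of `w` bits, which are computed by circuits with at most
`M` gates in depth at most `h`, which decides the disjointness of the sets `X i` and `Y j` with at
most `T` probes and error probability at most `1 / 1000`. -/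
def Solvable (N k w s M h T : ℕ) : Prop :=
  ∃ (Ω : Type) (_ : Fintype Ω) (p : Ω → ℝ) (D : Ω → DS k w s), (∀ ω, 0 ≤ p ω) ∧ ∑ ω, p ω = 1 ∧
    (∀ ω, (D ω).Bounded M h T) ∧ Solves N p D

/-- (1) The explicit bound. (2) For a constant depth `h`, word length and query time at most
`(log N) ^ c` and circuits with at most `2 ^ ((log N) ^ c)` gates, the space is at least
`N ^ 2 / (K * (log N) ^ C)` for all large `N`. -/
theorem result :
    (∀ N w T : ℕ, 1 ≤ w → 1 ≤ T → 1000 * (w * T) ≤ N → ∃ k : ℕ, ∀ s M h σ : ℕ, 1 ≤ σ →
      h * (M * N ^ 2) ≤ 2 ^ σ → Solvable N k w s M h T →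
      (N : ℝ) ^ 2 ≤ 10 ^ 10 * T ^ 2 * w ^ 3 * s * (24 * σ) ^ (2 * h + 2)) ∧
    ∀ h c : ℕ, ∃ K C N₀ : ℕ, ∀ N w T : ℕ, N₀ ≤ N → 1 ≤ w → w ≤ (Nat.log 2 N) ^ c →
      1 ≤ T → T ≤ (Nat.log 2 N) ^ c → ∃ k : ℕ, ∀ s M : ℕ, M ≤ 2 ^ (Nat.log 2 N) ^ c →
      Solvable N k w s M h T → (N : ℝ) ^ 2 ≤ K * (s * (Nat.log 2 N : ℝ) ^ C) := by
  have h1 : ∀ N w T : ℕ, 1 ≤ w → 1 ≤ T → 1000 * (w * T) ≤ N → ∃ k : ℕ, ∀ s M h σ : ℕ, 1 ≤ σ →
      h * (M * N ^ 2) ≤ 2 ^ σ → Solvable N k w s M h T →
      (N : ℝ) ^ 2 ≤ 10 ^ 10 * T ^ 2 * w ^ 3 * s * (24 * σ) ^ (2 * h + 2) := by
    intro N w T hw hT hN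
    obtain ⟨k, hk⟩ := int_main hw hT hN
    refine ⟨k, ?_⟩
    rintro s M h σ hσ hM ⟨Ω, _, p, D, hp, hp1, hD, hs⟩
    exact hk s M h σ hσ hM Ω p hp hp1 D hD hs
  refine ⟨h1, fun h c => ?_⟩
  obtain ⟨n₀, hn₀⟩ := log_small (c + c)
  refine ⟨10 ^ 10 * (24 * (h + 6)) ^ (2 * h + 2), 5 * c + (c + 1) * (2 * h + 2), n₀, ?_⟩
  intro N w T hn hw hw' hT hT'
  obtain ⟨hl, hn'⟩ := hn₀ N hn
  obtain ⟨k, hk⟩ := h1 N w T hw hT (by
    refine le_trans ?_ hn'
    apply Nat.mul_le_mul_left
    rw [pow_add]
    exact Nat.mul_le_mul hw' hT')
  refine ⟨k, fun s M hM hS => ?_⟩
  refine polylog hl hw' hT' ?_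
  have h2 := hk s M h (sg h c (Nat.log 2 N)) ?_ (sg_cond hM) hS
  · exact_mod_cast h2
  · unfold sg
    omega

end Pool.Agent.Results.MP_f326ae_lc.ConstantDepthMemory
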