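import Pool.Agent.U593.FM.LMain

/-!
# SetIntersection: total formula size `N ^ 2 / T` of the joint memory, for every query time

A family of `2 k` sets of total size at most `N` is preprocessed: the sets `X i` of the first half
and the sets `Y j` of the second half. The memory has `s` joint cells of `w` bits, and in addition an
unlimited memory with arbitrary functions of the first half alone and of the second half alone. Every
bit of a joint cell is computed from the sets by a de Morgan formula (binary AND and OR gates), whose
leaves are arbitrary functions of single sets, or more generally functions of the family with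
certificates of at most `d` sets (for instance: the values of arbitrary procedures which read at most
`d` sets adaptively). A query `(i, j)` lists the elements of `X i ∩ Y j` with at most `C * (T + op)`
adaptive probes (joint cells, or words of `w` bits of the one-sided memory), where `op` is the size
of the intersection; the computation of the query is free and not uniform, everything may be random,
and the probability that the query is right and fast is at least `1 / 2`. We show, for all
`N ≥ 10 ^ 10 (C w) ^ 2 T` and a suitable `k`, that the total number `L` of leaves of the formulas of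
all joint cells together (its mean, for random structures) satisfies

  `N ^ 2 ≤ 10 ^ 21 * C ^ 5 * w ^ 5 * T * d ^ 2 * L`.

So if all bits have formulas with at most `ℓ` leaves the space is `Ω~(N ^ 2 / (T ℓ))`, for every `T`
up to `N / polylog N`.

Proof. The frame is that of `ConstantDepthListing` (helper121): the sets are random, for every pair
`(i, j)` there are `c T / (w C)` cells on the average with a bit which is sensitive to both sets (if
all contents are exchanged by second random contents in all possible ways), since otherwise the query
could be simulated by a protocol of the owners of the two sets which is impossible by the tensorised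
two-point inequality of the starting file `EntanglementTradeoff`. The mean number of pairs to which
a bit is sensitive is at most the mean square of its sensitivity. Here we use in place of the
switching lemma the matrix `M` of the sensitivity graph (rows: zeros, columns: ones): the mean square
of the sensitivity is at most the square of the norm of `M`, which is subadditive for conjunctions
(split the rows) and disjunctions (split the columns), as was found by Koutsoupias, and at most
`d ^ 2` for a leaf. So the mean number of sensitive pairs is at most `d ^ 2` times the number of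
leaves.
-/

set_option autoImplicit false

namespace Pool.Agent.Results.MP_f326ae_lc.FormulaListing

open Pool.Agent.U593.FM.Lst

/-- There is a random data structure for SetIntersection for two families of `k` sets of numbers
less than `N`, of total size at most `N`, with query time `C * (T + op)` and `s` joint cells of `w`
bits computed by de Morgan formulas over functions with certificates of at most `d` sets; the mean of
the total number of leaves of the formulas is at most `L`. -/
def Solvable (N k d w s : ℕ) (C T L : ℝ) : Prop :=
  ∃ (Ω : Type) (_ : Fintype Ω) (p : Ω → ℝ) (D : Ω → DS k d w s), (∀ ω, 0 ≤ p ω) ∧ ∑ ω, p ω = 1 ∧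
    Solves N C T p D ∧ ∑ ω, p ω * ((D ω).memory.size : ℝ) ≤ L

/-- (1) The bound for the mean of the total size of the formulas. (2) The bound for the number of
cells, if every bit has a formula with at most `l` leaves. -/
theorem result : ∀ (N w : ℕ) (C T : ℝ), 1 ≤ w → 1 ≤ C → 1 ≤ T → 10 ^ 10 * (C * w) ^ 2 * T ≤ N →
    ∃ k : ℕ,
      (∀ (d s : ℕ) (L : ℝ), 1 ≤ d → Solvable N k d w s C T L →
        (N : ℝ) ^ 2 ≤ 10 ^ 21 * C ^ 5 * w ^ 5 * T * d ^ 2 * L) ∧
      ∀ (d s l : ℕ), 1 ≤ d → ∀ (Ω : Type) [Fintype Ω] (p : Ω → ℝ) (D : Ω → DS k d w s),
        (∀ ω, 0 ≤ p ω) → ∑ ω, p ω = 1 → Solves N C T p D →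
        (∀ ω c t, ((D ω).memory.formula c t).size ≤ l) →
        (N : ℝ) ^ 2 ≤ 10 ^ 21 * C ^ 5 * w ^ 6 * T * d ^ 2 * (s * l) := by
  intro N w C T hw hC hT hN
  obtain ⟨k, hk⟩ := list_main hw hC hT hN
  have hC0 : 0 < C := by linarith
  have hT0 : 0 < T := by linarith
  have h1 : ∀ (d s : ℕ) (L : ℝ), 1 ≤ d → Solvable N k d w s C T L →
      (N : ℝ) ^ 2 ≤ 10 ^ 21 * C ^ 5 * w ^ 5 * T * d ^ 2 * L := by
    rintro d s L hd ⟨Ω, _, p, D, hp, hp1, hs, hL⟩
    refine (hk d s hd Ω p hp hp1 D hs).trans ?_
    calc (10 : ℝ) ^ 21 * C ^ 5 * w ^ 5 * T *
        ((d : ℝ) ^ 2 * ∑ ω, p ω * ((D ω).memory.size : ℝ)) ≤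
        10 ^ 21 * C ^ 5 * w ^ 5 * T * ((d : ℝ) ^ 2 * L) := by gcongr
      _ = _ := by ring
  refine ⟨k, h1, ?_⟩
  intro d s l hd Ω _ p D hp hp1 hs hl
  have h2 : ∀ ω, ((D ω).memory.size : ℝ) ≤ s * (w * l) := by
    intro ω
    have h3 : (D ω).memory.size ≤ s * (w * l) := by
      unfold Memory.size
      calc ∑ c : Fin s, ∑ t : Fin w, ((D ω).memory.formula c t).size ≤
          ∑ c : Fin s, ∑ t : Fin w, l :=
            Finset.sum_le_sum fun c _ => Finset.sum_le_sum fun t _ => hl ω c t
        _ = s * (w * l) := by simp
    exact_mod_cast h3
  have h4 : ∑ ω, p ω * ((D ω).memory.size : ℝ) ≤ s * (w * l) := by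
    calc ∑ ω, p ω * ((D ω).memory.size : ℝ) ≤ ∑ ω, p ω * (s * (w * l)) :=
          Finset.sum_le_sum fun ω _ => mul_le_mul_of_nonneg_left (h2 ω) (hp ω)
      _ = _ := by rw [← Finset.sum_mul, hp1, one_mul]
  refine (h1 d s _ hd ⟨Ω, _, p, D, hp, hp1, hs, h4⟩).trans (le_of_eq ?_)
  ring

end Pool.Agent.Results.MP_f326ae_lc.FormulaListing
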