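import Mathlib
import Pool.Agent.U286.LY.SetInt

/-!
# Set intersection queries for memories computed by narrow word circuits

A family of `k + k` sets of `u` elements each, of total size `N = 2 k u`, is preprocessed; the
elements are natural numbers up to `7 u`, and every set is given by the increasing list of its
elements (`IsHalf`). A data structure (`SetDS`) consists of a word circuit
(`Pool.Agent.Y631.Wc.WCirc`), which reads the elements of all sets, and whose gates compute
ARBITRARY functions of at most `κ` elements and words of earlier gates. The memory holds the words
of ALL gates, and in addition ALL functions of one half of the family alone (so sorting, hash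
tables and any other preprocessing of the two halves separately are free and unlimited). A query
names a set of the first half and a set of the second half; it reads words of the memory in `T`
ADAPTIVE steps, with free computation, and answers whether the two sets intersect (`Meet`). The
whole data structure is random (`RandSetDS`), and every answer may be wrong with probability
`1 / 3`. A structure which lists the intersections in time `C (T + op)` decides this with `C T + 1`
steps.

The circuit has the width `c` (`WidthLE`) if the graph of its gates (the elements are deleted, they
can be read everywhere) has treewidth less than `c`, or can be drawn in the plane with at most `c ^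
2` gates and crossings. The number of gates is the space.

**Result.** Let the expected number of reads (wires from elements to gates) be at most `r k u`. Then
`k u ≤ 2 ^ (110000 r) (κ + 1) b (E c + k T)` for words of `b` bits. So for bounded `r` and `κ`, words
of `O (log N)` bits and sets of `u ≥ C T log N` elements, for every query time `T`, the width is at
least `c N / log N`; in a drawing, gates and crossings together are at least `c N ^ 2 / log ^ 2 N`,
for all `T` up to `c N / log N`, while `N ^ 2 / T` gates are enough without the restrictions (the
question is whether they are necessary). If the expected width is at most `(k u) ^ (1 - ε)` and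
`k T ≤ (k u) ^ (1 - ε)`, the expected number of reads is `Ω (ε N log N)`. The condition on `k T` is
natural, because `T = O (u)` is enough for the trivial algorithm.

**Proof.** The places in the lists are matched by a random shift: the set `i` of the first half is
matched with the set `i + s₁` of the second half, the place `v` with the place `v + s₂`. The circuit
is divided into parts with few elements each by removing `O (c)` gates for each of them; after a
random choice of sides for the parts, `k u / C ^ r` matched pairs of places are separated. For fixed
words at the removed gates and fixed answers to all steps of the `k` queries for the matched sets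
the inputs form a rectangle, which is LABELLED with the `k` answers. New here, compared with
`MP_e016b3_lc.NarrowPreprocessing`: Razborov's corruption bound for such labelled partitions, where
for every pair of places only the error of the answer for its own pair of sets is counted
(`Pool.Agent.U286.LY.udisj'`); so no union bound over the `k` queries is necessary, which the error
`1 / 3` would not allow with `O (N)` reads.
-/

set_option autoImplicit false

namespace Pool.Agent.Results.MP_f326ae_lc.NarrowPreprocessing

open Pool.Agent.Y631.Wc Pool.Agent.U286.LY

/-- (1) Let `D` be a random data structure for families of `k + k` sets of `u` elements with `T ≥ 1`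
adaptive steps for each query, whose preprocessing circuits have fan-in at most `κ`, words of
`b ≥ 1` bits and the width `c ω`; every answer is wrong with probability at most `1 / 3`. If the
expected number of reads is at most `r k u`, `r ≥ 1`, then
`k u ≤ 2 ^ (110000 r) (κ + 1) b (E c + k T)`.

(2) For all `a`, `κ`, `ε > 0` and all `k`, `u` for which `n = k u` is large: if such a random data
structure has at most `n ^ a` words, the expected width is at most `n ^ (1 - ε)` and
`k T ≤ n ^ (1 - ε)`, then the expected number of reads is at least `(ε / 440000) n log₂ n`. -/
theorem result :
    (∀ {k u r κ b T : ℕ}, 1 ≤ r → 1 ≤ b → 1 ≤ T → ∀ {Z : Type} [Fintype Z],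
      Fintype.card Z ≤ 2 ^ b → ∀ {Ω : Type} [Fintype Ω] (p : Ω → ℝ) (D : Ω → SetDS k u T Z)
      (c : Ω → ℕ), RandSetDS κ p D → (∀ ω, WidthLE (D ω).circ (c ω)) →
      mean p (fun ω => (D ω).circ.reads) ≤ r * (k * u) →
      (k : ℝ) * u ≤ 2 ^ (110000 * r) * ((κ + 1) * b * (mean p c + k * T))) ∧
    ∀ (a κ : ℕ) (ε : ℝ), 0 < ε → ∃ n₀ : ℕ, ∀ k u : ℕ, n₀ ≤ k * u → ∀ T : ℕ, 1 ≤ T →
      (k : ℝ) * T ≤ ((k * u : ℕ) : ℝ) ^ (1 - ε) → ∀ (Z : Type) [Fintype Z],
      Fintype.card Z ≤ (k * u) ^ a → ∀ (Ω : Type) [Fintype Ω] (p : Ω → ℝ)
      (D : Ω → SetDS k u T Z) (c : Ω → ℕ), RandSetDS κ p D →
      (∀ ω, WidthLE (D ω).circ (c ω)) → mean p c ≤ ((k * u : ℕ) : ℝ) ^ (1 - ε) →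
      ε / 440000 * ((k * u : ℕ) * Real.logb 2 (k * u : ℕ)) ≤
        mean p fun ω => (D ω).circ.reads := by
  refine ⟨?_, ?_⟩
  · intro k u r κ b T hr hb hT Z _ hZ Ω _ p D c h hc hR
    exact set_all hr hb hT hZ p D h hR c hc
  · intro a κ ε hε
    exact set_reads a κ ε hε

end Pool.Agent.Results.MP_f326ae_lc.NarrowPreprocessing
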